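import Mathlib
import Pool.Agent.P.MP_32ff52_an.Defs
import Pool.Agent.P.MP_32ff52_an.Ell
import Pool.Agent.P.MP_32ff52_an.EllOne
import Pool.Agent.P.MP_32ff52_an.Plane
import Pool.Agent.P.MP_32ff52_an.Iso

open scoped ENNReal
open MeasureTheory Pool.Agent.P.MP_32ff52_an

namespace Pool.Agent.Results.MP_32ff52_an.EquivariantLifting

theorem result (p : ℝ≥0∞) [Fact (1 ≤ p)] (hp : p ≠ ∞) :
    (HasEquivariantDualLifting (lp (fun _ : ℕ => ℝ) p) ↔ p = 1) ∧
    ¬ HasEquivariantDualLifting (Lp ℝ p (volume.restrict (Set.Icc (0 : ℝ) 1))) := by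
  refine ⟨⟨fun h => by_contra fun h1 => not_ell hp h1 h, fun h => ?_⟩, fun h => ?_⟩
  · subst h
    exact ell_one
  · obtain ⟨e⟩ := exists_iso hp
    exact not_plane hp (h.transfer e)

end Pool.Agent.Results.MP_32ff52_an.EquivariantLifting
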